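import Pool.Agent.N436.DF.Stm3

/-! Project DF (helper436), leaf S3_t2d (helper58): `nu = 13`, at least two other boundary edges. -/

set_option autoImplicit false
set_option linter.unusedSectionVars false

namespace Pool.Agent.N58.DF

open Pool.Agent.N436.DF Finset

variable {V : Type} [DecidableEq V]

theorem sv_nn {H : Hub V} (hok : Ok P13 H) {f : V → Bool} {s : V → V → ℤ}
    (hs : ∀ x z, 0 ≤ s x z) (x z : V) : 0 ≤ sv H f s x z := by
  have hr := hok.r01 x z
  have hm := hok.m_nn x z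
  have hsx := hs x z
  unfold sv
  rcases hr with h | h <;> rw [h] <;> split_ifs <;> omega

theorem sv_true {H : Hub V} (hok : Ok P13 H) {f : V → Bool} {s : V → V → ℤ}
    (hs : ∀ x z, 0 ≤ s x z) {x : V} (z : V) (hf : f x = true) :
    2 * (H.r x z + H.m x z) ≤ sv H f s x z := by
  have hr := hok.r01 x z
  have hm := hok.m_nn x z
  have hsx := hs x z
  unfold sv
  simp only [hf, if_true]
  rcases hr with h | h <;> rw [h] <;> split_ifs <;> omega

theorem sv_false {H : Hub V} (hok : Ok P13 H) {f : V → Bool} {s : V → V → ℤ}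
    {x z : V} (hf : f x = false) (hs : 1 ≤ s x z) (he : 1 ≤ H.r x z + H.m x z) :
    5 ≤ sv H f s x z := by
  have hr := hok.r01 x z
  have hm := hok.m_nn x z
  unfold sv
  simp only [hf, Bool.false_eq_true, if_false]
  rcases hr with h | h <;> rw [h] <;> rw [h] at he <;> split_ifs <;> omega

theorem sv_real {H : Hub V} (hok : Ok P13 H) {f : V → Bool} {s : V → V → ℤ}
    {x z : V} (hs : 1 ≤ s x z) (hr : H.r x z = 1) :
    (if f x = true then 7 else 9) ≤ sv H f s x z := by
  have hm := hok.m_nn x z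
  unfold sv
  rw [hr]
  split_ifs <;> omega

theorem two_le {F : V → ℤ} {s : Finset V} (hF : ∀ i ∈ s, 0 ≤ F i) {a b : V} (ha : a ∈ s)
    (hb : b ∈ s) (hab : a ≠ b) : F a + F b ≤ ∑ i ∈ s, F i := by
  rw [← Finset.sum_pair hab]
  refine Finset.sum_le_sum_of_subset_of_nonneg ?_ (fun i hi _ => hF i hi)
  intro x hx
  rw [Finset.mem_insert, Finset.mem_singleton] at hx
  rcases hx with rfl | rfl
  · exact ha
  · exact hb

theorem three_le {F : V → ℤ} {s : Finset V} (hF : ∀ i ∈ s, 0 ≤ F i) {a b c : V} (ha : a ∈ s)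
    (hb : b ∈ s) (hc : c ∈ s) (hab : a ≠ b) (hac : a ≠ c) (hbc : b ≠ c) :
    F a + F b + F c ≤ ∑ i ∈ s, F i := by
  rw [← Finset.sum_erase_add s F hc]
  have h := two_le (F := F) (s := s.erase c) (fun i hi => hF i (Finset.mem_of_mem_erase hi))
    (Finset.mem_erase.2 ⟨hac, ha⟩) (Finset.mem_erase.2 ⟨hbc, hb⟩) hab
  linarith

/-- the main argument -/
theorem core (hb : S3_base) (hs : S3_state) (hk : S3_kill) {H : Hub V} {S X : Finset V}
    {v y₁ y₂ : V} (ht : T2 H S X v y₁ y₂ 13) {x1 x2 z1 z2 : V} (hx1 : x1 ∈ X) (hx2 : x2 ∈ X)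
    (hx1v : x1 ≠ v) (hx2v : x2 ≠ v) (hz1 : z1 ∈ S \ X) (hz2 : z2 ∈ S \ X)
    (he1 : 1 ≤ H.r x1 z1 + H.m x1 z1) (he2 : 1 ≤ H.r x2 z2 + H.m x2 z2)
    (heq : x1 = x2 → 2 ≤ ∑ z ∈ S \ X, (H.r x1 z + H.m x1 z))
    (hA : ∀ C, C ⊆ S \ X → y₂ ∈ C → y₁ ∉ C → hp H (X ∪ C) = 10 → z1 ∈ C) : False := by
  have hok := ht.mc.ok
  obtain ⟨-, -, -, -, hb5⟩ := hb V H hok
  obtain ⟨hb6, hb7⟩ := hb5 S ht.mc
  have hy1 := ht.hy₁
  have hy2 := ht.hy₂
  have hy1' := Finset.mem_sdiff.1 hy1
  have hy2' := Finset.mem_sdiff.1 hy2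
  have hvS : v ∈ S := ht.sub ht.hv
  have hXS : X ≠ S := by
    intro h
    rw [h] at hy1'
    exact hy1'.2 hy1'.1
  -- the reservation
  obtain ⟨l, hl⟩ : ∃ l : Bool → V → ℤ, l = fun i z =>
      if z = v then 1 else if (z = x1 ∨ z = x2) ∧ i = false then 1 else 0 := ⟨_, rfl⟩
  have hl0 : ∀ i x, 0 ≤ l i x := by
    intro i x
    rw [hl]
    dsimp only
    split_ifs <;> norm_num
  have hlv : ∀ i, l i v = 1 := by
    intro i
    rw [hl]
    dsimp only
    rw [if_pos rfl]
  have hcost : ∀ C : Finset V, cost l C ≤ (if v ∈ C then 8 else 0) + 6 := by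
    intro C
    have h1 : ∀ z, 5 * l true z + 3 * l false z ≤
        (if z = v then 8 else 0) + ((if z = x1 then 3 else 0) + (if z = x2 then 3 else 0)) := by
      intro z
      rw [hl]
      dsimp only
      by_cases h2 : z = v
      · simp only [h2, if_true]
        split_ifs <;> norm_num
      · by_cases h3 : z = x1 <;> by_cases h4 : z = x2 <;> simp [h2, h3, h4] <;>
          (split_ifs <;> norm_num)
    unfold cost
    calc ∑ z ∈ C, (5 * l true z + 3 * l false z)
        ≤ ∑ z ∈ C, ((if z = v then 8 else 0) +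
            ((if z = x1 then 3 else 0) + (if z = x2 then 3 else 0)) : ℤ) :=
          Finset.sum_le_sum fun z _ => h1 z
      _ = (if v ∈ C then 8 else 0) + ((if x1 ∈ C then 3 else 0) + (if x2 ∈ C then 3 else 0)) := by
          rw [Finset.sum_add_distrib, Finset.sum_add_distrib, Finset.sum_ite_eq',
            Finset.sum_ite_eq', Finset.sum_ite_eq']
      _ ≤ _ := by split_ifs <;> norm_num
  obtain ⟨f, p, hcol, hfp⟩ := hs V H S X l ht.mc ht.sub hXS hl0 (by
    intro C hC hCne
    refine (hcost C).trans ?_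
    by_cases hvC : v ∈ C
    · rw [if_pos hvC]
      have h1 : RB2 H S C := ⟨v, hvC, y₁, Finset.mem_sdiff.2 ⟨hy1'.1, fun h => hy1'.2 (hC h)⟩,
        y₂, Finset.mem_sdiff.2 ⟨hy2'.1, fun h => hy2'.2 (hC h)⟩, ht.ne, ht.r₁, ht.r₂⟩
      have h2 := ht.min C (hC.trans ht.sub) h1
      linarith
    · rw [if_neg hvC]
      by_cases hRB : RB H S C
      · have h2 := ht.rb10 C (hC.trans ht.sub) hRB
        linarith
      · have h2 := ht.cl5 C (hC.trans ht.sub) hCne hRB
          ⟨v, Finset.mem_sdiff.2 ⟨hvS, hvC⟩, y₁, hy1'.1, ht.r₁⟩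
        linarith)
  -- the services
  obtain ⟨g, hg⟩ : ∃ g : V → V, g = fun x => if x = v then y₁ else if x = x1 then z1 else z2 :=
    ⟨_, rfl⟩
  obtain ⟨s, hsdef⟩ : ∃ s : V → V → ℤ, s = fun x z => if z = g x then l (f x) x else 0 :=
    ⟨_, rfl⟩
  have hs0 : ∀ x z, 0 ≤ s x z := by
    intro x z
    rw [hsdef]
    dsimp only
    split_ifs
    · exact hl0 _ _
    · exact le_refl _
  have hsg : ∀ x, s x (g x) = l (f x) x := by
    intro x
    rw [hsdef]
    dsimp only
    rw [if_pos rfl]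
  obtain ⟨C, hC, hCne, hCle⟩ := hk V H S X f p s ht.mc ht.sub ⟨v, ht.hv⟩ hcol hs0 (by
    intro x hx
    have h1 := (hfp x hx).1
    have h2 : ∑ z ∈ S \ X, s x z ≤ l (f x) x := by
      rw [hsdef]
      dsimp only
      rw [Finset.sum_ite_eq']
      split_ifs
      · exact le_refl _
      · exact hl0 _ _
    linarith)
  rw [ht.hν] at hCle
  have hsv := sv_nn (f := f) hok hs0
  have hW : ∀ x, 0 ≤ ∑ z ∈ C, sv H f s x z := fun x => Finset.sum_nonneg fun z _ => hsv x z
  have hsum0 : 0 ≤ ∑ x ∈ X, ∑ z ∈ C, sv H f s x z := Finset.sum_nonneg fun x _ => hW x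
  have hone : ∀ x ∈ X, ∑ z ∈ C, sv H f s x z ≤ ∑ x ∈ X, ∑ z ∈ C, sv H f s x z := fun x hx =>
    Finset.single_le_sum (f := fun x => ∑ z ∈ C, sv H f s x z) (fun x _ => hW x) hx
  have hin : ∀ x, ∀ z ∈ C, sv H f s x z ≤ ∑ z ∈ C, sv H f s x z := fun x z hz =>
    Finset.single_le_sum (f := fun z => sv H f s x z) (fun z _ => hsv x z) hz
  have hgv : g v = y₁ := by
    rw [hg]
    dsimp only
    rw [if_pos rfl]
  have hgx1 : g x1 = z1 := by
    rw [hg]
    dsimp only
    rw [if_neg hx1v, if_pos rfl]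
  have hs1 : s v y₁ = 1 := by
    rw [← hgv, hsg, hlv]
  have hv1 : (if f v = true then 7 else 9) ≤ sv H f s v y₁ := sv_real hok hs1.ge ht.r₁
  have hv1' : 7 ≤ sv H f s v y₁ := by
    refine le_trans ?_ hv1
    split_ifs <;> norm_num
  have hv2 : f v = true → 2 ≤ sv H f s v y₂ := by
    intro h
    have h1 := sv_true hok hs0 y₂ h
    rw [ht.r₂] at h1
    have h2 := hok.m_nn v y₂
    linarith
  have hvv : y₁ ∈ C → y₂ ∈ C → 9 ≤ ∑ z ∈ C, sv H f s v z := by
    intro h1 h2
    have h3 := two_le (F := fun z => sv H f s v z) (fun z _ => hsv v z) h1 h2 ht.ne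
    refine le_trans ?_ h3
    by_cases hf : f v = true
    · have h4 := hv2 hf
      rw [if_pos hf] at hv1
      linarith
    · rw [if_neg hf] at hv1
      have h4 := hsv v y₂
      linarith
  have hlx1 : f x1 = false → l (f x1) x1 = 1 := by
    intro h
    rw [hl]
    dsimp only
    rw [if_neg hx1v, if_pos ⟨Or.inl rfl, h⟩]
  have hlx2 : f x2 = false → l (f x2) x2 = 1 := by
    intro h
    rw [hl]
    dsimp only
    rw [if_neg hx2v, if_pos ⟨Or.inr rfl, h⟩]
  have hsx1 : (if f x1 = true then 2 else 5) ≤ sv H f s x1 z1 := by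
    by_cases hf : f x1 = true
    · rw [if_pos hf]
      have h1 := sv_true hok hs0 z1 hf
      linarith
    · rw [if_neg hf]
      have hf' : f x1 = false := by
        rcases h : f x1 with _ | _
        · rfl
        · exact absurd h hf
      refine sv_false hok hf' ?_ he1
      rw [← hgx1, hsg, hlx1 hf']
  have hsx2 : x1 ≠ x2 → (if f x2 = true then 2 else 5) ≤ sv H f s x2 z2 := by
    intro hne
    have hgx2 : g x2 = z2 := by
      rw [hg]
      dsimp only
      rw [if_neg hx2v, if_neg hne.symm]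
    by_cases hf : f x2 = true
    · rw [if_pos hf]
      have h1 := sv_true hok hs0 z2 hf
      linarith
    · rw [if_neg hf]
      have hf' : f x2 = false := by
        rcases h : f x2 with _ | _
        · rfl
        · exact absurd h hf
      refine sv_false hok hf' ?_ he2
      rw [← hgx2, hsg, hlx2 hf']
  have hXC : X ∪ C ⊆ S := Finset.union_subset ht.sub (hC.trans Finset.sdiff_subset)
  have hvXC : v ∈ X ∪ C := Finset.mem_union_left _ ht.hv
  by_cases hfull : C = S \ X
  · -- `C = B`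
    have h1 : X ∪ C = S := by
      rw [hfull]
      exact Finset.union_sdiff_of_subset ht.sub
    rw [h1] at hCle
    have h2 := hb6 S (Finset.Subset.refl S) ⟨v, hvS⟩
    have hy1C : y₁ ∈ C := by rw [hfull]; exact hy1
    have hy2C : y₂ ∈ C := by rw [hfull]; exact hy2
    have hz1C : z1 ∈ C := by rw [hfull]; exact hz1
    have hz2C : z2 ∈ C := by rw [hfull]; exact hz2
    have h3 := hvv hy1C hy2C
    have h4 := hin x1 z1 hz1C
    by_cases he : x1 = x2
    · have h5 := two_le (F := fun x => ∑ z ∈ C, sv H f s x z) (fun x _ => hW x) ht.hv hx1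
        hx1v.symm
      have h6 : 4 ≤ ∑ z ∈ C, sv H f s x1 z := by
        by_cases hf : f x1 = true
        · have h7 := heq he
          rw [← hfull] at h7
          have h8 : ∑ z ∈ C, 2 * (H.r x1 z + H.m x1 z) ≤ ∑ z ∈ C, sv H f s x1 z :=
            Finset.sum_le_sum fun z _ => sv_true hok hs0 z hf
          rw [← Finset.mul_sum] at h8
          linarith
        · rw [if_neg hf] at hsx1
          linarith
      linarith
    · have h5 := three_le (F := fun x => ∑ z ∈ C, sv H f s x z) (fun x _ => hW x) ht.hv hx1 hx2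
        hx1v.symm hx2v.symm he
      have h6 := hin x2 z2 hz2C
      have h7 := hsx2 he
      have h8 : 2 ≤ sv H f s x1 z1 := by
        refine le_trans ?_ hsx1
        split_ifs <;> norm_num
      have h9 : 2 ≤ sv H f s x2 z2 := by
        refine le_trans ?_ h7
        split_ifs <;> norm_num
      linarith
  · have hXCS : X ∪ C ≠ S := by
      intro h
      apply hfull
      apply Finset.Subset.antisymm hC
      intro z hz
      have hz' := Finset.mem_sdiff.1 hz
      have h1 : z ∈ X ∪ C := by rw [h]; exact hz'.1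
      rcases Finset.mem_union.1 h1 with h2 | h2
      · exact absurd h2 hz'.2
      · exact h2
    have hout : ∀ y, y ∈ S \ X → y ∉ C → y ∈ S \ (X ∪ C) := by
      intro y hy hyC
      have hy' := Finset.mem_sdiff.1 hy
      refine Finset.mem_sdiff.2 ⟨hy'.1, fun h => ?_⟩
      rcases Finset.mem_union.1 h with h2 | h2
      · exact hy'.2 h2
      · exact hyC h2
    by_cases hRB : RB H S (X ∪ C)
    · have h10 := ht.rb10 (X ∪ C) hXC hRB
      have h11 := hone v ht.hv
      by_cases h1 : y₁ ∈ C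
      · have h2 := hin v y₁ h1
        linarith
      · by_cases h2 : y₂ ∈ C
        · have h3 : hp H (X ∪ C) = 10 := by linarith
          have h4 := hA C hC h2 h1 h3
          have h5 := hin x1 z1 h4
          have h6 := hone x1 hx1
          have h8 : 2 ≤ sv H f s x1 z1 := by
            refine le_trans ?_ hsx1
            split_ifs <;> norm_num
          linarith
        · have h3 := ht.min (X ∪ C) hXC
            ⟨v, hvXC, y₁, hout y₁ hy1 h1, y₂, hout y₂ hy2 h2, ht.ne, ht.r₁, ht.r₂⟩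
          linarith
    · have h1 : y₁ ∈ C := by
        by_contra h
        exact hRB ⟨v, hvXC, y₁, hout y₁ hy1 h, ht.r₁⟩
      have h2 : y₂ ∈ C := by
        by_contra h
        exact hRB ⟨v, hvXC, y₂, hout y₂ hy2 h, ht.r₂⟩
      have h3 := hvv h1 h2
      have h4 := (hb7 (X ∪ C) hXC ⟨v, hvXC⟩ hXCS).2
      have h5 := hone v ht.hv
      linarith

theorem t2d (hb : S3_base) (hs : S3_state) (hk : S3_kill) : S3_t2d := by
  intro V _ H S X v y₁ y₂ ν ht heo hν hbo
  subst hν
  have hok := ht.mc.ok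
  obtain ⟨-, hb2, hb3, -, hb5⟩ := hb V H hok
  have hy1' := Finset.mem_sdiff.1 ht.hy₁
  have hy2' := Finset.mem_sdiff.1 ht.hy₂
  have hnn : ∀ x z, 0 ≤ H.r x z + H.m x z := by
    intro x z
    have h1 := hok.m_nn x z
    rcases hok.r01 x z with h | h <;> rw [h] <;> linarith
  have hr0 : ∀ x z, 0 ≤ H.r x z := by
    intro x z
    rcases hok.r01 x z with h | h <;> rw [h] <;> norm_num
  -- the boundary edges at `v`
  have hv0 : ∀ z ∈ S \ X, z ≠ y₁ → z ≠ y₂ → H.r v z + H.m v z = 0 := by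
    intro z hz h1 h2
    have h3 := three_le (F := fun z => H.r v z + H.m v z) (fun z _ => hnn v z) ht.hy₁ ht.hy₂ hz
      ht.ne h1.symm h2.symm
    have h4 : ∑ z ∈ S \ X, (H.r v z + H.m v z) ≤ 2 := hbo
    have h5 := hok.m_nn v y₁
    have h6 := hok.m_nn v y₂
    have h7 := hnn v z
    have h8 := ht.r₁
    have h9 := ht.r₂
    linarith
  have hm2 : H.m v y₂ = 0 := by
    have h3 := two_le (F := fun z => H.r v z + H.m v z) (fun z _ => hnn v z) ht.hy₁ ht.hy₂ ht.ne
    have h4 : ∑ z ∈ S \ X, (H.r v z + H.m v z) ≤ 2 := hbo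
    have h5 := hok.m_nn v y₁
    have h6 := hok.m_nn v y₂
    have h8 := ht.r₁
    have h9 := ht.r₂
    linarith
  -- the first boundary edge
  obtain ⟨x1, hx1, hx1v, z1, hz1, he1, hA⟩ : ∃ x1 ∈ X, x1 ≠ v ∧ ∃ z1 ∈ S \ X,
      1 ≤ H.r x1 z1 + H.m x1 z1 ∧
      ∀ C, C ⊆ S \ X → y₂ ∈ C → y₁ ∉ C → hp H (X ∪ C) = 10 → z1 ∈ C := by
    obtain ⟨A2, hA2⟩ : ∃ A2 : Finset (Finset V), A2 = (S \ X).powerset.filter
      (fun C => y₂ ∈ C ∧ y₁ ∉ C ∧ hp H (X ∪ C) = 10) := ⟨_, rfl⟩
    have hmem : ∀ C, C ∈ A2 ↔ C ⊆ S \ X ∧ y₂ ∈ C ∧ y₁ ∉ C ∧ hp H (X ∪ C) = 10 := by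
      intro C
      rw [hA2, Finset.mem_filter, Finset.mem_powerset]
    by_cases hne : A2.Nonempty
    · obtain ⟨C0, hC0, hmin⟩ := Finset.exists_min_image A2 (fun C => C.card) hne
      obtain ⟨c1, c2, c3, c4⟩ := (hmem C0).1 hC0
      have hsub : ∀ C ∈ A2, C0 ⊆ C := by
        intro C hC
        obtain ⟨d1, d2, d3, d4⟩ := (hmem C).1 hC
        have hRBX : ∀ D, D ⊆ S \ X → y₁ ∉ D → 10 ≤ hp H (X ∪ D) := by
          intro D hD hyD
          apply ht.rb10 (X ∪ D) (Finset.union_subset ht.sub (hD.trans Finset.sdiff_subset))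
          refine ⟨v, Finset.mem_union_left _ ht.hv, y₁, Finset.mem_sdiff.2 ⟨hy1'.1, fun h => ?_⟩,
            ht.r₁⟩
          rcases Finset.mem_union.1 h with h2 | h2
          · exact hy1'.2 h2
          · exact hyD h2
        have h1 := hb3 (X ∪ C0) (X ∪ C)
        have h2 : (X ∪ C0) ∩ (X ∪ C) = X ∪ (C0 ∩ C) := by
          rw [← Finset.union_inter_distrib_left]
        have h3 : (X ∪ C0) ∪ (X ∪ C) = X ∪ (C0 ∪ C) := by
          ext z
          simp only [Finset.mem_union]
          tauto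
        rw [h2, h3, c4, d4] at h1
        have h4 := hRBX (C0 ∪ C) (Finset.union_subset c1 d1) (by
          intro h
          rcases Finset.mem_union.1 h with h5 | h5
          · exact c3 h5
          · exact d3 h5)
        have h5 := hRBX (C0 ∩ C) (Finset.inter_subset_left.trans c1)
          (fun h => c3 (Finset.mem_inter.1 h).1)
        have h6 : hp H (X ∪ (C0 ∩ C)) = 10 := by linarith
        have h7 := hmin (C0 ∩ C) ((hmem _).2 ⟨Finset.inter_subset_left.trans c1,
          Finset.mem_inter.2 ⟨c2, d2⟩, fun h => c3 (Finset.mem_inter.1 h).1, h6⟩)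
        have h8 := Finset.eq_of_subset_of_card_le Finset.inter_subset_left h7
        rw [← h8]
        exact Finset.inter_subset_right
      have hdisj : Disjoint X C0 := by
        rw [Finset.disjoint_left]
        intro x hx hx0
        exact (Finset.mem_sdiff.1 (c1 hx0)).2 hx
      obtain ⟨x1, hx1, hx1v, z1, hz1, he1⟩ : ∃ x1 ∈ X, x1 ≠ v ∧ ∃ z1 ∈ C0,
          1 ≤ H.r x1 z1 + H.m x1 z1 := by
        by_contra hcon
        push Not at hcon
        have hz : ∀ x ∈ X, x ≠ v → ∀ z ∈ C0, H.r x z = 0 ∧ H.m x z = 0 := by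
          intro x hx hxv z hz
          have h1 := hcon x hx hxv z hz
          have h2 := hr0 x z
          have h3 := hok.m_nn x z
          constructor <;> linarith
        have hvz : ∀ z ∈ C0, z ≠ y₂ → H.r v z = 0 ∧ H.m v z = 0 := by
          intro z hz hzy
          have h1 := hv0 z (c1 hz) (fun h => c3 (h ▸ hz)) hzy
          have h2 := hr0 v z
          have h3 := hok.m_nn v z
          constructor <;> linarith
        have hrr : rr H X C0 = 1 := by
          unfold rr
          rw [Finset.sum_eq_single v]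
          · rw [Finset.sum_eq_single y₂]
            · exact ht.r₂
            · intro z hz hzy
              exact (hvz z hz hzy).1
            · intro h
              exact absurd c2 h
          · intro x hx hxv
            exact Finset.sum_eq_zero fun z hz' => (hz x hx hxv z hz').1
          · intro h
            exact absurd ht.hv h
        have hmm : mm H X C0 = 0 := by
          unfold mm
          refine Finset.sum_eq_zero fun x hx => Finset.sum_eq_zero fun z hz' => ?_
          by_cases hxv : x = v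
          · by_cases hzy : z = y₂
            · rw [hxv, hzy]
              exact hm2
            · rw [hxv]
              exact (hvz z hz' hzy).2
          · exact (hz x hx hxv z hz').2
        have h1 := hb2 X C0 hdisj
        rw [c4, ht.hν, hrr, hmm] at h1
        have h2 := ht.rb10 C0 (c1.trans Finset.sdiff_subset) ⟨y₂, c2, v,
          Finset.mem_sdiff.2 ⟨ht.sub ht.hv, fun h => (Finset.disjoint_left.1 hdisj ht.hv h)⟩,
          by rw [hok.rsymm]; exact ht.r₂⟩
        linarith
      exact ⟨x1, hx1, hx1v, z1, c1 hz1, he1, fun C h1 h2 h3 h4 =>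
        hsub C ((hmem C).2 ⟨h1, h2, h3, h4⟩) hz1⟩
    · obtain ⟨x, hx, hx0⟩ : ∃ x ∈ X.erase v, 0 < ∑ z ∈ S \ X, (H.r x z + H.m x z) := by
        by_contra hcon
        push Not at hcon
        have h1 : eo H S X v ≤ 0 := Finset.sum_nonpos hcon
        linarith
      obtain ⟨z, hz, hz0⟩ : ∃ z ∈ S \ X, 0 < H.r x z + H.m x z := by
        by_contra hcon
        push Not at hcon
        have h1 : ∑ z ∈ S \ X, (H.r x z + H.m x z) ≤ 0 := Finset.sum_nonpos hcon
        linarith
      refine ⟨x, Finset.mem_of_mem_erase hx, Finset.ne_of_mem_erase hx, z, hz, hz0,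
        fun C h1 h2 h3 h4 => ?_⟩
      exact absurd ⟨C, (hmem C).2 ⟨h1, h2, h3, h4⟩⟩ hne
  by_cases htot : 2 ≤ ∑ z ∈ S \ X, (H.r x1 z + H.m x1 z)
  · exact core hb hs hk ht hx1 hx1 hx1v hx1v hz1 hz1 he1 he1 (fun _ => htot) hA
  · have hx1e : x1 ∈ X.erase v := Finset.mem_erase.2 ⟨hx1v, hx1⟩
    obtain ⟨x2, hx2, hx20⟩ : ∃ x ∈ (X.erase v).erase x1,
        0 < ∑ z ∈ S \ X, (H.r x z + H.m x z) := by
      by_contra hcon
      push Not at hcon
      have h1 : ∑ x ∈ (X.erase v).erase x1, ∑ z ∈ S \ X, (H.r x z + H.m x z) ≤ 0 :=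
        Finset.sum_nonpos hcon
      have h2 : ∑ x ∈ (X.erase v).erase x1, ∑ z ∈ S \ X, (H.r x z + H.m x z) +
          ∑ z ∈ S \ X, (H.r x1 z + H.m x1 z) = eo H S X v :=
        Finset.sum_erase_add (X.erase v) (fun x => ∑ z ∈ S \ X, (H.r x z + H.m x z)) hx1e
      linarith
    obtain ⟨z2, hz2, hz20⟩ : ∃ z ∈ S \ X, 0 < H.r x2 z + H.m x2 z := by
      by_contra hcon
      push Not at hcon
      have h1 : ∑ z ∈ S \ X, (H.r x2 z + H.m x2 z) ≤ 0 := Finset.sum_nonpos hcon
      linarith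
    have h1 := Finset.mem_erase.1 hx2
    have h2 := Finset.mem_erase.1 h1.2
    exact core hb hs hk ht hx1 h2.2 hx1v h2.1 hz1 hz2 he1 hz20
      (fun h => absurd h.symm h1.1) hA

end Pool.Agent.N58.DF
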